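import Mathlib
import Pool.Agent.MNT.Point

set_option autoImplicit false

/-!
# Many torsion points on hyperelliptic curves: definitions used in the final statement

`UBT.OddCurve K` is a curve `C : Y² = f(X)` over `K`, `f` squarefree of odd degree; `C.Jac` is the class
group of its coordinate ring, i.e. the group `J(K)`; `MNT.cls C x y` is the class of `P - ∞`,
`P = (x, y)`.
-/

namespace Pool.Agent.MNU

open Polynomial NumberField Pool.Agent.MNT

/-- The `(x i, y i)` are `2 g + 9` points of `C : Y² = f(X)`, `deg f = 2 g + 1`, over `K` with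
distinct abscissae, not Weierstrass points, and torsion in the Jacobian (base point `∞`). -/
structure Many (g : ℕ) {K : Type} [Field K] [CharZero K] (C : UBT.OddCurve K)
    (x y : Fin (2 * g + 9) → K) : Prop where
  deg : C.f.natDegree = 2 * g + 1
  inj : Function.Injective x
  on : ∀ i, y i ^ 2 = C.f.eval (x i)
  ne : ∀ i, y i ≠ 0
  tor : ∀ i, IsOfFinOrder (cls C (x i) (y i))

/-- The indices of the roots and of the points. -/
abbrev Idx (g : ℕ) : Type := Fin (2 * g + 1) ⊕ Fin (2 * g + 9)

/-- The configuration of the roots `θ j` of `f` and the abscissae `x i`, as a projective point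
`(z p - z q)`, has relative multiplicative height at most `exp (30 (4 g + 10)⁶) ^ [K : ℚ]`. -/
def HeightBound (g : ℕ) : Prop :=
  ∀ (K : Type) [Field K] [NumberField K] (C : UBT.OddCurve K) (x y : Fin (2 * g + 9) → K),
    Many g C x y → ∀ (e : K) (θ : Fin (2 * g + 1) → K),
    C.f = Polynomial.C e * ∏ j, (X - Polynomial.C (θ j)) →
    Height.mulHeight (fun pq : Idx g × Idx g => Sum.elim θ x pq.1 - Sum.elim θ x pq.2) ≤
      Real.exp (30 * (4 * (g : ℝ) + 10) ^ 6) ^ Module.finrank ℚ K

/-- Finitely many configurations up to affine maps over all number fields of degree `≤ d`. -/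
def FinitelyMany (g : ℕ) : Prop :=
  ∀ d : ℕ, ∃ S : Finset (Idx g → AlgebraicClosure ℚ), ∀ (K : Type) [Field K] [NumberField K],
    Module.finrank ℚ K ≤ d → ∀ (C : UBT.OddCurve K) (x y : Fin (2 * g + 9) → K), Many g C x y →
    ∀ φ : K →+* AlgebraicClosure ℚ, ∃ s ∈ S, ∃ μ ν : AlgebraicClosure ℚ, μ ≠ 0 ∧
      (∀ i, φ (x i) = μ * s (Sum.inr i) + ν) ∧
      (C.f.map φ).roots = Finset.univ.val.map fun j => μ * s (Sum.inl j) + ν

/-- All torsion of the Jacobian is bounded. -/
def TorsionBound (g : ℕ) : Prop :=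
  ∀ d : ℕ, ∃ B : ℕ, ∀ (K : Type) [Field K] [NumberField K], Module.finrank ℚ K ≤ d →
    ∀ (C : UBT.OddCurve K) (x y : Fin (2 * g + 9) → K), Many g C x y →
    ∀ c : C.Jac, IsOfFinOrder c → orderOf c ≤ B

/-- `Y` is a model over `M`, of odd degree `2 g + 1`, of the curve `y² = f(x)` over `K`, where
`deg f ≤ 2 g + 2`, with the change of coordinate `x = (α X + β)/(γ X + δ)`. -/
structure OddModel (g : ℕ) {K M : Type} [Field K] [Field M] [Algebra K M] (f : K[X])
    (Y : UBT.OddCurve M) (α β γ δ : M) : Prop where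
  deg_le : f.natDegree ≤ 2 * g + 2
  deg_Y : Y.f.natDegree = 2 * g + 1
  det : α * δ - β * γ ≠ 0
  eq : ∃ e : M, e ≠ 0 ∧ Y.f = C e * ∑ i ∈ Finset.range (2 * g + 2 + 1),
    C (algebraMap K M (f.coeff i)) * (C α * X + C β) ^ i * (C γ * X + C δ) ^ (2 * g + 2 - i)

/-- Let `y² = f(x)` be a curve over `K` of genus `g` and `Y` an odd model over `M ⊇ K`, `[M : ℚ] ≤ d`.
If `Y` has a torsion point over `M` whose abscissa (in the coordinate of the curve over `K`) has
degree at least `2 g + 9` over `K`, then all torsion of the Jacobian over `M` is bounded. -/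
def DegreeBound (g : ℕ) : Prop :=
  ∀ d : ℕ, ∃ B : ℕ, ∀ (K M : Type) [Field K] [NumberField K] [Field M] [NumberField M]
    [Algebra K M], Module.finrank ℚ M ≤ d → ∀ (f : K[X]) (Y : UBT.OddCurve M) (α β γ δ : M),
    OddModel g f Y α β γ δ → ∀ x y : M, y ^ 2 = Y.f.eval x → γ * x + δ ≠ 0 →
    2 * g + 9 ≤ (minpoly K ((α * x + β) / (γ * x + δ))).natDegree → IsOfFinOrder (cls Y x y) →
    ∀ c : Y.Jac, IsOfFinOrder c → orderOf c ≤ B

end Pool.Agent.MNU
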