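import Pool.Agent.MNT.StmtsG
import Pool.Agent.MNT.Point

set_option autoImplicit false

/-!
# MNU (MP_160b6c_nt): many torsion points, version with `2 g + 9` pairs, explicit height bound, and
bounds for all torsion of the Jacobian. Definitions.

Everything of MNT which does not depend on the number of points (trees, laminar families, local
analysis, class groups) is used unchanged.
-/

namespace Pool.Agent.MNU

open Polynomial NumberField
open Pool.Agent.MNT

/-- `γ = (2 g² + 1) / (g + 4)` -/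
noncomputable def gm (g : ℕ) : ℝ := (2 * (g : ℝ) ^ 2 + 1) / (g + 4)

/-- `k = 3 g - γ / 2` -/
noncomputable def kk (g : ℕ) : ℝ := (4 * (g : ℝ) ^ 2 + 24 * g - 1) / (2 * g + 8)

/-- `(g + 1) (2 g + 1) - k` -/
noncomputable def BB (g : ℕ) : ℝ := 2 * (g : ℝ) ^ 2 + 3 * g + 1 - kk g

/-- weight of a cluster with `a` roots and `b` points, `A`-terms not included -/
noncomputable def u0 (g a b : ℕ) : ℝ :=
  (2 * (g : ℝ) + 9) * (a * (a - 1) / 2) - (2 * g + 1) * a * b + gm g * (b * (b - 1) / 2)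

/-- weight of a cluster with `a ≥ 1` roots and `b` points -/
noncomputable def u1 (g a b : ℕ) : ℝ := u0 g a b + 3 * g * b

/-- The quadratic functional of the configuration (ordered pairs, hence the factors `1 / 2`). -/
noncomputable def Psi {P : Type} [Fintype P] [DecidableEq P] (g : ℕ) (R : Finset P)
    (δ : P → P → ℝ) : ℝ :=
  (2 * (g : ℝ) + 9) / 2 * pairs R δ - (2 * g + 1) * cross R Rᶜ δ + gm g / 2 * pairs Rᶜ δ

section tree

open scoped Classical

variable {V : Type} [Fintype V] [PartialOrder V] [OrderTop V]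

/-- Labels: `a v`, `b v` = number of roots and of points in the cluster `v`; `G` = grounded. -/
structure Lb (g : ℕ) (T : MNT.Tree V) (G : V → Prop) (a b : V → ℕ) : Prop where
  a_pos : ∀ v, 1 ≤ a v
  a_le : ∀ v, a v ≤ 2 * g + 1
  b_le : ∀ v, b v ≤ 2 * g + 9
  two_le : ∀ v, 2 ≤ a v + b v
  proper : ∀ v, v ≠ ⊤ → a v = 2 * g + 1 → b v < 2 * g + 9
  a_kids : ∀ v, ∑ c ∈ T.kids v, a c ≤ a v
  b_kids : ∀ v, ∑ c ∈ T.kids v, b c ≤ b v
  top : G ⊤
  even : ∀ v, ¬ G v → Even (a v)
  sum_eq : ∀ v, ¬ G v → ∑ c ∈ T.kids v, a c = a v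
  kids_even : ∀ v, ¬ G v → ∀ c ∈ T.kids v, Even (a c)

end tree

/-- `0` for odd `a`; `2/9` for even `a` if `g = 2`; for `g ≥ 3`: `1/4` for `a = 2, 2 g`, `1` for the
other even `a`. -/
noncomputable def ef (g a : ℕ) : ℝ :=
  if Odd a then 0 else if g = 2 then 2 / 9 else if a = 2 ∨ a = 2 * g then 1 / 4 else 1

/-- error constant of the local inequality, to be multiplied by `c₀ + e₂` -/
noncomputable def EM (g : ℕ) : ℝ :=
  3 * g * (2 * g + 9) * (1 + 3 * (4 * g + 10)) + (8 * g + 16) * (4 * g + 10) ^ 3 +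
    2 * (4 * (g : ℝ) + 10)

/-- Index set: `2 g + 1` roots (`inl`) and `2 g + 9` points (`inr`). -/
abbrev QI (g : ℕ) : Type := Fin (2 * g + 1) ⊕ Fin (2 * g + 9)

/-- The roots. -/
def QR (g : ℕ) : Finset (QI g) := Finset.univ.filter fun p => p.isLeft

/-- A configuration over `K`: `z` = roots (on `QR g`) and abscissae (outside `QR g`) with solutions of
the Pell equation for every abscissa. -/
structure Cfg (g : ℕ) {K : Type} [Field K] (z : QI g → K) (e : K) : Prop where
  inj : Function.Injective z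
  e_ne : e ≠ 0
  sol : ∀ x, x ∉ QR g → ∃ (N : ℕ) (U W : K[X]) (c : K), IsSol (FF e (QR g) z) (z x) N U W c

/-- The explicit bound of the height. -/
noncomputable def HH (g : ℕ) : ℝ := Real.exp (30 * (4 * (g : ℝ) + 10) ^ 6)

/-- The Pell equation for a polynomial `f` of degree at most `2 g + 2` and the point above `ξ`
(solvable if the difference of the two points above `ξ` is torsion). -/
structure HSol (g : ℕ) {K : Type} [Field K] (f : K[X]) (ξ : K) (N : ℕ) (U W : K[X]) (c : K) :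
    Prop where
  pos : 1 ≤ N
  c_ne : c ≠ 0
  eq : U ^ 2 - f * W ^ 2 = (C c * (X - C ξ) ^ N) ^ 2
  degU : U.natDegree ≤ N
  degW : W = 0 ∨ W.natDegree + (g + 1) ≤ N
  ev : U.eval ξ ≠ 0

/-- `(γ X + δ)^n p((α X + β)/(γ X + δ))` for `deg p ≤ n` -/
noncomputable def mob {K : Type} [Field K] (α β γ δ : K) (n : ℕ) (p : K[X]) : K[X] :=
  ∑ i ∈ Finset.range (n + 1), C (p.coeff i) * (C α * X + C β) ^ i * (C γ * X + C δ) ^ (n - i)

/-- `Y` is a model over `M`, of odd degree `2 g + 1`, of the curve `y² = f(x)` over `K`,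
`deg f ≤ 2 g + 2`, with change of coordinate `x = (α X + β)/(γ X + δ)`. -/
structure IsOddModel (g : ℕ) {K M : Type} [Field K] [Field M] [Algebra K M] (f : K[X])
    (Y : UBT.OddCurve M) (α β γ δ : M) : Prop where
  deg_le : f.natDegree ≤ 2 * g + 2
  deg_Y : Y.f.natDegree = 2 * g + 1
  det : α * δ - β * γ ≠ 0
  eq : ∃ e : M, e ≠ 0 ∧ Y.f = C e * mob α β γ δ (2 * g + 2) (f.map (algebraMap K M))

end Pool.Agent.MNU
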