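import Pool.Agent.MNU.Defs

set_option autoImplicit false

/-!
# MNU: statements
-/

namespace Pool.Agent.MNU

open Polynomial NumberField
open Pool.Agent.MNT
open scoped Classical

/-! ## Block T: trees -/

/-- HB2 (STRONG, 200 lines; uses IDJ). Genus 2: the bound with `2/9`.
PROOF. By IDJ the left side is `2 ∑_{¬ G v} (#kids v - 1) h v`. For `¬ G v`: `a v ∈ {2, 4}` (even,
`1 ≤ a v ≤ 5`) and the children have even numbers `≥ 2` of roots with sum `a v`, so `#kids v = 1`, or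
`a v = 4` and there are two children `c₁, c₂` with `a = 2`. There is at most one node `v` of the second
kind: if `v`, `v'` are two of them, they are comparable or not; if `v < v'` the child of `v'` above or
equal to `v` has `a ≥ 4` (`a` is monotone, `Lb.a_kids`), impossible; if they are not comparable,
consider the least common upper bound `w` (or go up from `v` to the last element not above `v'`): the
two children of `w` above `v` and `v'` have `a ≥ 4` each, `4 + 4 ≤ a w ≤ 5`, impossible. So the left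
side is `0` or `2 h v`. For this `v` (`≠ ⊤`): `1 / h v = 1/(l v + r v) + 1/(l c₁ + s c₁) + 1/(l c₂ + s c₂)`
(`Res.s_eq`), and by the inequality of the harmonic and the arithmetic mean
`h v ≤ ((l v + r v) + (l c₁ + s c₁) + (l c₂ + s c₂)) / 9`. Finally (induction on the tree):
if `a c = 2`, `c ≠ ⊤`: `l c + s c ≤ ∑_{d ≤ c, a d = 2} l d` (if `¬ G c` there is exactly one child `d`,
`a d = 2` and `s c = l d + s d`); if `a u = 4`, `u ≠ ⊤`: `l u + r u ≤ ∑_{d ≥ u, d ≠ ⊤, a d = 4} l d`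
(`w = par u`; if `G w`, `r u = 0`; if `¬ G w` then `a w` is even, `≥ 4`, so `4`, `u` is its only child,
`r u = l w + r w`). The three sets of edges (below `c₁`, below `c₂`, above `v`) are disjoint and consist
of edges with even `a`. So `2 h v ≤ (2/9) ∑_{a even} l`. -/
def Hb2Stmt : Prop := ∀ (V : Type) [Fintype V] [PartialOrder V] [OrderTop V]
    (T : MNT.Tree V) (G : V → Prop) (a b : V → ℕ) (l s r : V → ℝ), (∀ c, c ≠ ⊤ → 0 < l c) →
    Lb 2 T G a b → Res T G l s r →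
    ∑ c with c ≠ ⊤, (l c - JJ l s r c) ≤ 2 / 9 * ∑ c with c ≠ ⊤ ∧ Even (a c), l c

/-- HBE (60 lines; uses HB2 and LG2, LGN of MNT; model `Helper35_MNT/HBD.lean`). PROOF. `g = 2`: HB2.
`g ≥ 3`: `Lb g` implies `MNT.Lab g` (`2g+9 ≤ 4g+8`), so HBD of MNT (`Pool.Agent.MNT.H35.hbd`) applies,
and `ef g = MNT.ee g` for `g ≠ 2`. -/
def HbeStmt : Prop := ∀ (g : ℕ), 2 ≤ g → ∀ (V : Type) [Fintype V] [PartialOrder V] [OrderTop V]
    (T : MNT.Tree V) (G : V → Prop) (a b : V → ℕ) (l s r : V → ℝ), (∀ c, c ≠ ⊤ → 0 < l c) →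
    Lb g T G a b → Res T G l s r →
    ∑ c with c ≠ ⊤, (l c - JJ l s r c) ≤ ∑ c with c ≠ ⊤, ef g (a c) * l c

/-- QEE (copy of `Helper44_MNT/QED.lean`). Completing the square, new constants: with `m = 2g+9`,
`n = 2g+2`, `α = a/n`, `τ = α - b/m`: `u1 g a b = m (BB τ² - kk (1-2α) τ + (kk-(g+1)) α (1-α))`. -/
def QeeStmt : Prop := ∀ (g : ℕ), 2 ≤ g → ∀ (a b : ℕ) (l D J : ℝ), 0 < l → D ^ 2 ≤ l * J / 3 →
    (2 * (g : ℝ) + 9) * ((kk g - (g + 1)) * ((a : ℝ) / (2 * g + 2) * (1 - a / (2 * g + 2))) * l -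
      (kk g ^ 2 * (1 - 2 * ((a : ℝ) / (2 * g + 2))) ^ 2 * l
        - 2 * kk g * (3 * g) * (1 - 2 * ((a : ℝ) / (2 * g + 2))) * D + (3 * (g : ℝ)) ^ 2 * J / 3) /
        (4 * BB g)) ≤
    l * u1 g a b + 3 * g * (2 * g + 9) * ((a : ℝ) / (2 * g + 2) - b / (2 * g + 9)) * D

/-- NEE (STRONG arithmetic; model `Helper86_MNT/NME.lean`). PROOF. `kk = (4g²+24g-1)/D`,
`D = 2g+8`, `kk - (g+1) = (2g²+14g-9)/D`, `BB = (4g³+18g²+2g+9)/D`. With `x = 1 - 2a/(2g+2)`,
`α(1-α) = (1-x²)/4`, the bracket decreases in `x²` for fixed `ef`. Cases: `g = 2` (`a = 2, 4`, value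
`0.0347`); `g ≥ 3`, `a = 2` or `2g` (`x² = (g-1)²/(g+1)²`, `ef = 1/4`); `g ≥ 3`, `4 ≤ a ≤ 2g-2`
(`x² ≤ (g-3)²/(g+1)²`, `ef = 1`). The last two are polynomial inequalities in `t = g - 3` with
nonnegative coefficients (numerators of the bracket times `4 BB D² (g+1)²`:
`t^6+64t^5+1879/2 t^4+5883t^3+35543/2 t²+24524t+11192` and
`24t^6+720t^5+7950t^4+41244t^3+103005t²+105384t+16848`; the margin `≥ 0.65` is much larger than
`1/30`). -/
def NeeStmt : Prop := ∀ (g : ℕ), 2 ≤ g → ∀ a : ℕ, 2 ≤ a → a ≤ 2 * g → Even a →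
    1 / 30 ≤ (2 * (g : ℝ) + 9) *
      ((kk g - (g + 1)) * ((a : ℝ) / (2 * g + 2) * (1 - a / (2 * g + 2))) -
      (kk g ^ 2 * (1 - 2 * ((a : ℝ) / (2 * g + 2))) ^ 2 + (3 * (g : ℝ)) ^ 2 / 3 +
        (kk g * (3 * g) - (3 * (g : ℝ)) ^ 2 / 3) * ef g a) / (4 * BB g))

/-- NOE (model `Helper79_MNT/NMO.lean`). PROOF. `a = 1`: `u1 g 1 b = (g-1) b + gm b(b-1)/2 ≥ 1`.
`a = 2g+1`: `u1 g (2g+1) b = u1 g 1 (2g+9-b)`. `3 ≤ a ≤ 2g-1`: by the identity of QEE
`u1/(2g+9) ≥ (kk-(g+1)) X - kk²(1-4X)/(4 BB)`, `X = α(1-α) ≥ 3(2g-1)/(2g+2)²`; times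
`4 BB D² (g+1)²` at this `X` it is, with `t = g - 2`,
`32t^6+784t^5+7100t^4+30756t^3+67707t²+71766t+28431`. -/
def NoeStmt : Prop := ∀ (g : ℕ), 2 ≤ g → ∀ a b : ℕ, Odd a → a ≤ 2 * g + 1 →
    b ≤ 2 * g + 9 → 2 ≤ a + b → (a = 2 * g + 1 → b < 2 * g + 9) → 1 / 30 ≤ u1 g a b

/-- TRG (copy of `Helper20_MNT/TRF.lean`, 300 lines; uses RES, FLO, SBP, HED, IDJ of MNT (all proved) and
HBE, QEE, NEE, NOE). The inequality for labelled rooted trees with `ε = 1/30`: the proof of TRF gives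
for odd edges `l u1 ≥ l/30`, for the sum over the even edges at least
`∑ l (2g+9) [...] ≥ (1/30) ∑ l`. -/
def TrgStmt : Prop := ∀ (g : ℕ), 2 ≤ g →
    ∀ (V : Type) [Fintype V] [PartialOrder V] [OrderTop V]
    (T : MNT.Tree V) (G : V → Prop) (a b : V → ℕ) (l : V → ℝ), (∀ c, c ≠ ⊤ → 0 < l c) →
    Lb g T G a b → ∃ D : V → V → ℝ, (∀ v j, 0 ≤ D v j) ∧ (∀ v j, D v j ≠ 0 → G j) ∧
      (∀ v, ∑ j, D v j = 1) ∧
      1 / 30 * ∑ c with c ≠ ⊤, l c +
        3 * g * ∑ v, ((b v : ℝ) - ∑ c ∈ T.kids v, (b c : ℝ)) * QQ l (fun j => D v j - dl v j) ≤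
        ∑ c with c ≠ ⊤, l c * u1 g (a c) (b c)

/-- TRX (copy of `Helper38_MNT/TRE.lean`, 500 lines; uses TRG and LPA, LKS, LGU, LFT, ENL of MNT
(all proved)). The tree inequality for laminar families, `ε = 1/30` (`gm g ≥ 3/2`,
`u0 g (2g+1) (2g+9) + 3g (2g+9) = 0`). -/
def TrxStmt : Prop := ∀ (g : ℕ), 2 ≤ g → ∀ (P : Type) [Fintype P] [DecidableEq P]
    (R : Finset P), R.card = 2 * g + 1 → Fintype.card P = 2 * g + 1 + (2 * g + 9) →
    ∀ Λ : Lam P, ∃ μ : P → Finset P → ℝ, (∀ x, x ∉ R → Λ.Prob R (μ x)) ∧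
      1 / 30 * Λ.len + 3 * g * ∑ x ∈ Rᶜ, Λ.En (μ x) x ≤
        ∑ d ∈ Λ.V, Λ.l d * u0 g (d ∩ R).card (d \ R).card

/-! ## Block A: places -/

/-- CNU (copy of `Helper3_MNT/CNT.lean`). Double counting; the error for `δ` is at most
`((2g+9)/2 + (2g+1) + gm/2) n² e₁ ≤ (8g+16) n² e₁`. -/
def CnuStmt : Prop := ∀ (g : ℕ) (P : Type) [Fintype P] [DecidableEq P] (Λ : Lam P) (R : Finset P)
    (δ : P → P → ℝ) (e₁ : ℝ), Λ.Rep δ e₁ →
    |Psi g R δ - ∑ d ∈ Λ.V, Λ.l d * u0 g (d ∩ R).card (d \ R).card| ≤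
      (8 * (g : ℝ) + 16) * (Fintype.card P : ℝ) ^ 2 * e₁

/-- OTE (copy of `Helper32_MNT/OTA.lean`; uses THN, ODA). OTA with the explicit constant
`log 128 + |M| + n log (4 n)`, `n = card P`. -/
def OteStmt : Prop := ∀ (M : ℝ) (P : Type) [Fintype P]
    [DecidableEq P] (R : Finset P) (z : P → ℂ), Function.Injective z →
    ∀ Λ : Lam P, Λ.Rep (dis vC z) M → ∀ e : ℂ, e ≠ 0 → ∀ c ∈ Λ.V, Λ.Grd R c →
    ∃ p ∈ c, ∀ (x : ℂ) (N : ℕ) (U W : ℂ[X]) (c' : ℂ), IsSol (FF e R z) x N U W c' →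
      Harm vC U.roots x (z p) (Real.exp (-Λ.lev c))
        (Real.log 128 + |M| + (Fintype.card P : ℝ) * Real.log (4 * Fintype.card P))

/-- LOU (copy of `Helper2_MNT/LOC.lean`; uses TRX, CNU and VLM, REP of MNT). -/
def LouStmt : Prop := ∀ g : ℕ, 2 ≤ g → ∀ (E : Type) [Field E]
    (v : AbsoluteValue E ℝ) (c₀ e₂ : ℝ), QU v c₀ → 0 ≤ e₂ → ∀ (P : Type) [Fintype P]
    [DecidableEq P] (R : Finset P), R.card = 2 * g + 1 →
    Fintype.card P = 2 * g + 1 + (2 * g + 9) → ∀ z : P → E, Function.Injective z →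
    ∀ (e : E) (N : P → ℕ) (U W : P → E[X]) (c : P → E), e ≠ 0 →
    (∀ x, x ∉ R → IsSol (FF e R z) (z x) (N x) (U x) (W x) (c x) ∧ (U x).Splits) →
    (∀ Λ : Lam P, Λ.Rep (dis v z) ((Fintype.card P : ℝ) * c₀) → ∀ d ∈ Λ.V, Λ.Grd R d →
      ∃ p ∈ d, ∀ x, x ∉ R → Harm v (U x).roots (z x) (z p) (Real.exp (-Λ.lev d)) e₂) →
    ∀ p q p' q', p ≠ q → p' ≠ q' → 1 / 30 * (dis v z p' q' - dis v z p q) ≤
      Psi g R (dis v z) - 3 * g * ∑ x ∈ Rᶜ,
        (Real.log (v ((U x).eval (z x))) - Real.log (v (c x))) / N x + EM g * (c₀ + e₂)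

/-- NBE (30 lines, arithmetic). With `n = 4g+10`: `EM g (log 2 + e₂) ≤ n⁶` where
`e₂ = log 128 + n log 2 + n log (4n)`. PROOF. `g ≥ 2`, `n ≥ 18`; `log 2 ≤ 0.7`,
`log (4n) ≤ n/4` (`log (4n) = log 72 + log (n/18) ≤ 4.3 + n/18 - 1`, `log 72 = 3 log 2 + 2 log 3`;
`3.3 + n/18 ≤ n/4`), so `log 2 + e₂ ≤ 5.6 + 0.7 n + n²/4 ≤ 0.32 n²`; `EM g ≤ 3 n⁴`
(`8g+16 ≤ 2n`, `3g ≤ 3n/4`, `2g+9 ≤ n`, ...). `0.96 n⁶ ≤ n⁶`. -/
def NbeStmt : Prop := ∀ g : ℕ, 2 ≤ g → EM g * (Real.log 2 + (Real.log 128 +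
    |(4 * (g : ℝ) + 10) * Real.log 2| + (4 * g + 10) * Real.log (4 * (4 * g + 10)))) ≤
      (4 * (g : ℝ) + 10) ^ 6

/-- LBU (copy of `Helper87_MNT/LOB.lean`; uses LOU, OTE, NBE and OTN of MNT). -/
def LbuStmt : Prop := ∀ g : ℕ, 2 ≤ g →
    (∀ (E : Type) [Field E] (v : AbsoluteValue E ℝ), IsNonarchimedean v → ∀ z : QI g → E,
      Function.Injective z → ∀ (e : E) (N : QI g → ℕ) (U W : QI g → E[X]) (c : QI g → E), e ≠ 0 →
      (∀ x, x ∉ QR g → IsSol (FF e (QR g) z) (z x) (N x) (U x) (W x) (c x) ∧ (U x).Splits) →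
      ∀ p q p' q', p ≠ q → p' ≠ q' → 1 / 30 * (dis v z p' q' - dis v z p q) ≤
        Psi g (QR g) (dis v z) - 3 * g * ∑ x ∈ (QR g)ᶜ,
          (Real.log (v ((U x).eval (z x))) - Real.log (v (c x))) / N x) ∧
    (∀ z : QI g → ℂ, Function.Injective z → ∀ (e : ℂ) (N : QI g → ℕ) (U W : QI g → ℂ[X])
      (c : QI g → ℂ), e ≠ 0 →
      (∀ x, x ∉ QR g → IsSol (FF e (QR g) z) (z x) (N x) (U x) (W x) (c x)) →
      ∀ p q p' q', p ≠ q → p' ≠ q' → 1 / 30 * (dis vC z p' q' - dis vC z p q) ≤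
        Psi g (QR g) (dis vC z) - 3 * g * ∑ x ∈ (QR g)ᶜ,
          (Real.log ‖(U x).eval (z x)‖ - Real.log ‖c x‖) / N x + (4 * (g : ℝ) + 10) ^ 6)

/-- HGU (copy of `Helper65_MNT/HGT.lean`; uses LBU and PFL of MNT, `BHT.ev`, `UBT.ext1`). Explicit
bound of the height: `log mulHeight ≤ 30 (4g+10)⁶ [K : ℚ]`. -/
def HguStmt : Prop := ∀ g : ℕ, 2 ≤ g → ∀ (K : Type) [Field K] [NumberField K]
    (z : QI g → K) (e : K), Cfg g z e →
    Height.mulHeight (fun pq : QI g × QI g => z pq.1 - z pq.2) ≤ HH g ^ Module.finrank ℚ K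

/-! ## Block G: number fields -/

/-- FNU (copy of `Helper35_MNT/TH2.lean`; uses HGU, `BHT.NCSStmt` (proved)). Finiteness. -/
def FnuStmt : Prop := ∀ g : ℕ, 2 ≤ g → ∀ d : ℕ, ∃ S : Finset (QI g → AlgebraicClosure ℚ),
    ∀ (K : Type) [Field K] [NumberField K], Module.finrank ℚ K ≤ d →
    ∀ (z : QI g → K) (e : K), Cfg g z e → ∀ φ : K →+* AlgebraicClosure ℚ,
    ∃ s ∈ S, ∃ μ ν : AlgebraicClosure ℚ, μ ≠ 0 ∧ ∀ p, φ (z p) = μ * s p + ν

/-- GPR (STRONG, 150 lines; uses PFL of MNT or `NumberField.mulHeight_eq`). Two good primes.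
PROOF. Let `y : ι → K` be nonzero everywhere with `mulHeight y ≤ H^[K:ℚ] ≤ (max H 1)^d`. For `i : ι`:
`mulHeight y = ∏_{v | ∞} (M_v / v (y i))^{mult} ∏_{v finite} (M_v / v (y i))` with `M_v = sup_j v (y j)`
(product formula for `y i`), all factors are `≥ 1`, and if `v` is finite above `p` with
`v (y i) < M_v` the factor is `≥ 2` (values of the normalised absolute value are integral powers of
`#(𝓞 K / P) ≥ 2`). So for every `i` the number of rational primes `p` having such a place `v` above `p`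
is at most `d log₂ (max H 1)`, and the number of all bad primes (some `v` above `p`, some
`i, j` with `v (y i) ≠ v (y j)`) is at most `T = #ι d log₂ (max H 1)`. So there are two good odd primes
among the first `T + 4` primes. `X` depends only on `#ι`, `d`, `H`. `w.valuation K (y i) = w.valuation K
(y j)` for all `w` above `p` is the same as the equality of the absolute values. -/
def GprStmt : Prop := ∀ (ι : Type) [Fintype ι] [Nonempty ι] (d : ℕ) (H : ℝ), ∃ X : ℕ,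
    ∀ (K : Type) [Field K] [NumberField K], Module.finrank ℚ K ≤ d → ∀ y : ι → K, (∀ i, y i ≠ 0) →
    Height.mulHeight y ≤ H → ∃ p q : ℕ, p.Prime ∧ q.Prime ∧ 2 < p ∧ p < q ∧ q ≤ X ∧
      ∀ w : IsDedekindDomain.HeightOneSpectrum (𝓞 K),
        ((p : ℕ) : 𝓞 K) ∈ w.asIdeal ∨ ((q : ℕ) : 𝓞 K) ∈ w.asIdeal →
        ∀ i j, w.valuation K (y i) = w.valuation K (y j)

/-- PRP (STRONG, 200 lines; copy of `UBT.primePart` in `Helper27_UBT/Asm.lean`). Torsion at a prime where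
all differences of the roots have the same absolute value. PROOF. `θ j` the roots, `e` the leading
coefficient, `u = θ 1 - θ 0`. `E = K(s)`, `s² = e u^{2g+1}` (EXT2). Over `E` the curve is isomorphic
(`Pool.Agent.UBT51.iso`) to `Y² = ∏ (X - (θ j - θ 0)/u)`, whose roots are `w`-integral with differences
of valuation `1` for every `w` of `E` above `p` (above a `w'` of `K` above `p`,
`HeightOneSpectrum.valuation_liesOver`). `H9.glb` with `UBT.DedStmt`, `UBT.LocStmt` (proved, see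
`Results/MP_160b6c_nt/RootFieldTorsion.lean`), and `bc1`, `bc2` for the descent to `K`.
`[E:ℚ] ≤ 2 [K:ℚ]`. -/
def PrpStmt : Prop := ∀ (g : ℕ), 1 ≤ g → ∀ (K : Type) [Field K] [NumberField K] (C : UBT.OddCurve K)
    (e : K) (θ : Fin (2 * g + 1) → K), C.f = Polynomial.C e * ∏ j, (X - Polynomial.C (θ j)) →
    ∀ p : ℕ, p.Prime → 2 < p →
    (∀ w : IsDedekindDomain.HeightOneSpectrum (𝓞 K), ((p : ℕ) : 𝓞 K) ∈ w.asIdeal →
      ∀ i j i' j', i ≠ j → i' ≠ j' →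
        w.valuation K (θ i - θ j) = w.valuation K (θ i' - θ j')) →
    ∀ c : C.Jac, IsOfFinOrder c → ∃ m a : ℕ, orderOf c = m * p ^ a ∧ 1 ≤ m ∧
      m ≤ 2 ^ ((p ^ (2 * Module.finrank ℚ K)) ^ (3 * g + 2))

/-- TJS (80 lines; uses HGU, GPR, PRP; the combination of two primes as in `UBT.fixedField`). Bound for
all torsion of the Jacobian, split case. PROOF. `y` = all differences `z p - z q`, `p ≠ q`;
`mulHeight y ≤ HH g ^ [K:ℚ] ≤ HH g ^ d` (`1 ≤ HH g`; `mulHeight_eq_mulHeight_restrict_support`). GPR gives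
two primes `≤ X`, PRP twice: `orderOf c = m p^a = m' q^a'`, so `p^a ∣ m'`, `orderOf c ≤ m m'`. -/
def TjsStmt : Prop := ∀ g : ℕ, 2 ≤ g → ∀ d : ℕ, ∃ B : ℕ,
    ∀ (K : Type) [Field K] [NumberField K], Module.finrank ℚ K ≤ d →
    ∀ (z : QI g → K) (e : K), Cfg g z e → ∀ C : UBT.OddCurve K, C.f = FF e (QR g) z →
    ∀ c : C.Jac, IsOfFinOrder c → orderOf c ≤ B

/-- BCJ (40 lines; uses `bc1`, `bc2`). Base change of torsion classes. PROOF. `Q.map φ C.f` is injective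
and reflects principality (BC1); the ring `Q L C'.f` is `Q L (C.f.map φ)`; BC2. -/
def BcjStmt : Prop := ∀ (K L : Type) [Field K] [NumberField K] [Field L] [NumberField L]
    (φ : K →+* L) (C : UBT.OddCurve K) (C' : UBT.OddCurve L), C'.f = C.f.map φ →
    ∀ c : C.Jac, ∃ c' : C'.Jac, orderOf c' = orderOf c

/-- SPU (60 lines; model `split` in `Helper28_MNT/MAIN.lean`; uses PEL of MNT, `UBT.ext1`). Configurations
from many torsion points. PROOF. `E` = splitting field of `f` over `K`; `PelStmt` over `K` for each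
point, mapped to `E` (`IsSol` is preserved by `Polynomial.map`). -/
def SpuStmt : Prop := ∀ (g : ℕ) (K : Type) [Field K] [NumberField K] (f : K[X]),
    f.natDegree = 2 * g + 1 → Squarefree f → ∀ (x y : Fin (2 * g + 9) → K), Function.Injective x →
    (∀ i, y i ^ 2 = f.eval (x i)) → (∀ i, y i ≠ 0) → (∀ i, ∃ N, TorB f (x i) (y i) N) →
    ∃ (E : Type) (_ : Field E) (_ : NumberField E) (_ : Algebra K E) (e : E)
      (θ : Fin (2 * g + 1) → E),
      Module.finrank ℚ E ≤ Module.finrank ℚ K * (2 * g + 1).factorial ∧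
      f.map (algebraMap K E) = C e * ∏ j, (X - C (θ j)) ∧
      Cfg g (Sum.elim θ fun i => algebraMap K E (x i)) e

/-! ## Block M: arbitrary models -/

/-- HSI (50 lines). PROOF. (i) `IsSol` for odd degree `2g+1` gives `HSol`: `f W² = U² - G²`,
`G = c (X-x)^N`, and `U²`, `G²` have the same leading term (`U.leadingCoeff² = c²`, degree `2N`), so
`deg (f W²) ≤ 2N - 1`, `2 deg W + 2g + 1 ≤ 2N - 1`. (ii) Conversely `deg (f W²) ≤ 2(N-g-1) + 2g+1 < 2N`,
so `U² = G² + f W²` has degree `2N` and leading coefficient `c²`. -/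
def HsiStmt : Prop := ∀ (g : ℕ) (K : Type) [Field K] (f : K[X]) (ξ : K) (N : ℕ) (U W : K[X]) (c : K),
    f.natDegree = 2 * g + 1 → (IsSol f ξ N U W c ↔ HSol g f ξ N U W c)

/-- MOB (STRONG, 150 lines). Invariance of the Pell equation under changes of the coordinate.
PROOF. `mob α β γ δ n` is multiplicative: `mob (m+n) (p q) = mob m p * mob n q` for `deg p ≤ m`,
`deg q ≤ n` (both are `(γX+δ)^{m+n} (pq)((αX+β)/(γX+δ))`; as an identity of polynomials it can be checked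
in the fraction field or coefficientwise). Apply `mob (2N)` to the equation: `U' = mob N U`,
`W' = s mob (N-g-1) W` (`0` if `W = 0`), `mob (2g+2) f = e' f'` where `f' = C e * mob (2g+2) f` and
`s² e = 1`, `mob N ((X-ξ)^N) = (mob 1 (X - ξ))^N` and
`mob 1 (X - ξ) = (α - γ ξ) X + (β - δ ξ) = κ (X - ξ')`, `κ = α - γ ξ ≠ 0`, where
`ξ = (α ξ' + β)/(γ ξ' + δ)`. `c' = c κ^N`; `U'(ξ') = (γ ξ' + δ)^N U(ξ) ≠ 0`. -/
def MobStmt : Prop := ∀ (g : ℕ) (K : Type) [Field K] (f : K[X]) (N : ℕ) (U W : K[X]) (c : K)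
    (α β γ δ ξ' e s : K), f.natDegree ≤ 2 * g + 2 → α * δ - β * γ ≠ 0 → γ * ξ' + δ ≠ 0 → e ≠ 0 →
    s ^ 2 * e = 1 → HSol g f ((α * ξ' + β) / (γ * ξ' + δ)) N U W c →
    ∃ (U' W' : K[X]) (c' : K),
      HSol g (C e * mob α β γ δ (2 * g + 2) f) ξ' N U' W' c'

/-- MOI (60 lines). Inverse change of coordinate: `mob` of the inverse matrix is the inverse up to
the factor `det^n`. PROOF. Coefficientwise or in the fraction field; for monomials
`mob (δ, -β, -γ, α) n ((αX+β)^i (γX+δ)^(n-i)) = (det X)^i det^(n-i)`. -/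
def MoiStmt : Prop := ∀ (K : Type) [Field K] (α β γ δ : K) (n : ℕ) (p : K[X]), p.natDegree ≤ n →
    mob δ (-β) (-γ) α n (mob α β γ δ n p) = C ((α * δ - β * γ) ^ n) * p

/-- CNE (STRONG, 150 lines; uses `UBT.ext1` twice; model: the Galois part of `Helper49_MNT/CNJ.lean`).
Conjugates. PROOF. `E₁ ⊇ M` = splitting field of `h`, `[E₁ : M] ≤ b!`; `E₁ = K(θ)`; `E ⊇ E₁` a number field
in which `(minpoly K θ) (minpoly K ξ)` splits, of bounded degree. Every element of `E₁` has a minimal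
polynomial over `K` which splits in `E`, so every `K`-homomorphism `M → E` extends to `E₁ → E`, and
`h.map σ` splits (image of the splitting of `h` in `E₁`). The `≥ m` roots of `minpoly K ξ` in `E` are
distinct and each is `σ ξ` for some `σ : M →ₐ[K] E`; choose `m` of them, one of them for the inclusion
`M ⊆ E₁ ⊆ E`. -/
def CneStmt : Prop := ∀ (m d b : ℕ), 1 ≤ m → ∃ D : ℕ, ∀ (K M : Type) [Field K] [NumberField K]
    [Field M] [NumberField M] [Algebra K M], Module.finrank ℚ M ≤ d → ∀ (ξ : M) (h : M[X]), h ≠ 0 →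
    h.natDegree ≤ b → m ≤ (minpoly K ξ).natDegree →
    ∃ (E : Type) (_ : Field E) (_ : NumberField E) (_ : Algebra K E) (_ : Algebra M E)
      (_ : IsScalarTower K M E) (σ : Fin m → M →ₐ[K] E), Module.finrank ℚ E ≤ D ∧
      (∀ i, (h.map (σ i).toRingHom).Splits) ∧ Function.Injective (fun i => σ i ξ) ∧
      ∃ i, ∀ a, σ i a = algebraMap M E a

/-- CFM (STRONG, 250 lines; uses HSI, MOB, MOI, CNE, PEL of MNT, BCJ, TJS). The Jacobian of every odd
model of a curve with a torsion point of degree `≥ 2g+9`.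
PROOF. `Y` odd model over `M` of `f` over `K` with matrix `(α,β,γ,δ)`, `Y.f = C e * mob ...`;
`P = (x, y) ∈ Y(M)` torsion, `ξ = (αx+β)/(γx+δ)` of degree `≥ 2g+9` over `K`. `y ≠ 0`: otherwise `ξ` is a
root of `f` (`Y.f.eval x = e (γx+δ)^(2g+2) f(ξ)`), which is `≠ 0`, of degree `≤ 2g+2`. PEL gives
`IsSol Y.f x N U W c` over `M`, HSI `HSol`. CNE with `h = Y.f * (X^2 - C e)`, `m = 2g+9`: field `E`,
embeddings `σ_i`. For each `i` apply `σ_i`: `HSol g (Y.f.map σ_i) (σ_i x)` and `Y.f.map σ_i =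
C (σ_i e) * mob (σ_i α) (σ_i β) (σ_i γ) (σ_i δ) (2g+2) (f.map)` (`f` has coefficients in `K`). MOB with the
matrix `(δ,-β,-γ,α)` (conjugated by `σ_i`), the point `σ_i ξ` and the factor
`e'' = (σ_i e · det^(2g+2))⁻¹` (`e''` has an inverse square root because `σ_i e` is a square in `E`) and
MOI give `HSol g (f.map) (σ_i ξ) N U_i W_i c_i` over `E`. Now MOB with the original matrix
`(α,β,γ,δ)` (in `E`) and the factor `e`, and with the point `x_i` such that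
`(α x_i+β)/(γ x_i+δ) = σ_i ξ`: `x_i = (δ σ_i ξ - β)/(α - γ σ_i ξ)`, where `α - γ σ_i ξ ≠ 0`: otherwise
(`γ ≠ 0`) `σ_i ξ = α/γ`, but the coefficient of `X^(2g+2)` of `mob ... f`, which is
`∑ coeff_i α^i γ^(2g+2-i) = γ^(2g+2) f(α/γ)`, vanishes because `Y.f` has degree `2g+1`, and
`f(σ_i ξ) ≠ 0` (degree of `ξ`). This gives `HSol g Y.f x_i` and `IsSol` over `E` (HSI). So
`Cfg g (Sum.elim θ x_•) e'` over `E` for `Y.f.map = e' ∏ (X - θ j)` (`θ` injective: squarefree; `x_i`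
distinct because the `σ_i ξ` are; not roots because `f(σ_i ξ) ≠ 0`). TJS over `E`, BCJ down to `M`. -/
def CfmStmt : Prop := ∀ g : ℕ, 2 ≤ g → ∀ d : ℕ, ∃ B : ℕ,
    ∀ (K M : Type) [Field K] [NumberField K] [Field M] [NumberField M] [Algebra K M],
    Module.finrank ℚ M ≤ d → ∀ (f : K[X]) (Y : UBT.OddCurve M) (α β γ δ : M),
    IsOddModel g f Y α β γ δ → ∀ x y : M, y ^ 2 = Y.f.eval x → γ * x + δ ≠ 0 →
    2 * g + 9 ≤ (minpoly K ((α * x + β) / (γ * x + δ))).natDegree → IsOfFinOrder (cls Y x y) →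
    ∀ c : Y.Jac, IsOfFinOrder c → orderOf c ≤ B

end Pool.Agent.MNU
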